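import Mathlib

/-!
# Many primes in an arithmetic progression at infinitely many scales
-/

set_option autoImplicit false

namespace Pool.Agent.TH588.HF

open ArithmeticFunction vonMangoldt

/-- the primes `≤ 4 ^ j` in the class `a` modulo `q` -/
def prs (q a j : ℕ) : Finset ℕ := (Finset.range (4 ^ j + 1)).filter (fun p => p.Prime ∧ p % q = a)

theorem mem_prs {q a j p : ℕ} : p ∈ prs q a j ↔ p ≤ 4 ^ j ∧ p.Prime ∧ p % q = a := by
  unfold prs
  rw [Finset.mem_filter, Finset.mem_range]
  constructor
  · rintro ⟨h1, h2, h3⟩; exact ⟨by omega, h2, h3⟩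
  · rintro ⟨h1, h2, h3⟩; exact ⟨by omega, h2, h3⟩

/-- For infinitely many `j` there are at least `2 ^ j` primes up to `4 ^ j` in a class. -/
theorem many_primes {q a : ℕ} (hq : 0 < q) (ha : a < q) (hc : Nat.Coprime a q) (J : ℕ) :
    ∃ j, J ≤ j ∧ 2 ^ j ≤ (prs q a j).card := by
  by_contra hcon
  push Not at hcon
  have : NeZero q := ⟨hq.ne'⟩
  have hu : IsUnit (a : ZMod q) := (ZMod.isUnit_iff_coprime a q).2 hc
  apply not_summable_residueClass_prime_div hu
  set f : ℕ → ℝ := fun n : ℕ => (if n.Prime then residueClass (a : ZMod q) n else 0) / n with hf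
  have hf0 : ∀ n, 0 ≤ f n := by
    intro n
    rw [hf]
    simp only
    split_ifs
    · exact div_nonneg (residueClass_nonneg _ n) (by positivity)
    · simp
  -- the terms
  have hterm : ∀ j n : ℕ, 4 ^ j < n → n ≤ 4 ^ (j + 1) →
      f n ≤ if n ∈ prs q a (j + 1) then 2 * ((j : ℝ) + 1) / 4 ^ j else 0 := by
    intro j n h1 h2
    have hn0 : 0 < n := by omega
    split_ifs with hmem
    · rw [mem_prs] at hmem
      simp only [hf]
      rw [if_pos hmem.2.1]
      have h3 : residueClass (a : ZMod q) n ≤ Real.log n :=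
        (residueClass_le _ n).trans vonMangoldt_le_log
      have h4 : Real.log n ≤ 2 * ((j : ℝ) + 1) := by
        have h5 : (n : ℝ) ≤ (Real.exp 2) ^ (j + 1) := by
          have h6 : (4 : ℝ) ≤ Real.exp 2 := by
            have := Real.exp_one_gt_d9
            have e : Real.exp 2 = Real.exp 1 * Real.exp 1 := by rw [← Real.exp_add]; norm_num
            rw [e]; nlinarith
          calc (n : ℝ) ≤ (4 : ℝ) ^ (j + 1) := by exact_mod_cast h2
            _ ≤ _ := pow_le_pow_left₀ (by norm_num) h6 _
        rw [Real.log_le_iff_le_exp (by exact_mod_cast hn0)]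
        refine h5.trans (le_of_eq ?_)
        rw [← Real.exp_nat_mul]
        congr 1
        push_cast
        ring
      have h7 : (4 : ℝ) ^ j ≤ n := by exact_mod_cast h1.le
      calc residueClass (a : ZMod q) n / (n : ℝ) ≤ (2 * ((j : ℝ) + 1)) / n := by
            gcongr
            exact h3.trans h4
        _ ≤ _ := by
            apply div_le_div_of_nonneg_left (by positivity) (by positivity) h7
    · simp only [hf]
      by_cases hp : n.Prime
      · rw [if_pos hp]
        have : (n : ZMod q) ≠ (a : ZMod q) := by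
          intro h0
          apply hmem
          rw [mem_prs]
          refine ⟨h2, hp, ?_⟩
          rw [ZMod.natCast_eq_natCast_iff'] at h0
          rw [h0, Nat.mod_eq_of_lt ha]
        have h0 : residueClass (a : ZMod q) n = 0 := by
          unfold residueClass
          rw [Set.indicator_of_notMem]
          exact this
        rw [h0]; simp
      · rw [if_neg hp]; simp
  -- the partial sums
  have hstep : ∀ j : ℕ, J ≤ j → ∑ n ∈ Finset.range (4 ^ (j + 1) + 1), f n ≤
      ∑ n ∈ Finset.range (4 ^ j + 1), f n + 4 * ((j : ℝ) + 1) / 2 ^ j := by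
    intro j hj
    have hle : 4 ^ j + 1 ≤ 4 ^ (j + 1) + 1 := by
      have := Nat.pow_le_pow_right (show 0 < 4 by norm_num) (Nat.le_succ j)
      omega
    rw [← Finset.sum_range_add_sum_Ico f hle]
    gcongr
    calc ∑ n ∈ Finset.Ico (4 ^ j + 1) (4 ^ (j + 1) + 1), f n
        ≤ ∑ n ∈ Finset.Ico (4 ^ j + 1) (4 ^ (j + 1) + 1),
          (if n ∈ prs q a (j + 1) then 2 * ((j : ℝ) + 1) / 4 ^ j else 0) := by
          apply Finset.sum_le_sum
          intro n hn
          rw [Finset.mem_Ico] at hn
          exact hterm j n (by omega) (by omega)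
      _ = ((Finset.Ico (4 ^ j + 1) (4 ^ (j + 1) + 1)).filter (fun n => n ∈ prs q a (j + 1))).card *
          (2 * ((j : ℝ) + 1) / 4 ^ j) := by
          rw [← Finset.sum_filter, Finset.sum_const, nsmul_eq_mul]
      _ ≤ (2 : ℝ) ^ (j + 1) * (2 * ((j : ℝ) + 1) / 4 ^ j) := by
          gcongr
          have h1 : ((Finset.Ico (4 ^ j + 1) (4 ^ (j + 1) + 1)).filter
              (fun n => n ∈ prs q a (j + 1))).card ≤ (prs q a (j + 1)).card := by
            apply Finset.card_le_card
            intro n hn
            exact (Finset.mem_filter.1 hn).2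
          have h2 := hcon (j + 1) (by omega)
          exact_mod_cast h1.trans h2.le
      _ = 4 * ((j : ℝ) + 1) / 2 ^ j := by
          have : (4 : ℝ) ^ j = 2 ^ j * 2 ^ j := by rw [← mul_pow]; norm_num
          rw [this]
          field_simp
          ring
  -- a bounded majorant
  have hmaj : ∀ j : ℕ, J ≤ j → ∑ n ∈ Finset.range (4 ^ j + 1), f n ≤
      ∑ n ∈ Finset.range (4 ^ J + 1), f n + 8 * ((J : ℝ) + 2) - 8 * ((j : ℝ) + 2) / 2 ^ j := by
    intro j hj
    induction j, hj using Nat.le_induction with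
    | base =>
      have h1 : (1 : ℝ) ≤ 2 ^ J := one_le_pow₀ (by norm_num)
      have h2 : 8 * ((J : ℝ) + 2) / 2 ^ J ≤ 8 * ((J : ℝ) + 2) := div_le_self (by positivity) h1
      linarith
    | succ j hj ih =>
      have h1 := hstep j hj
      have h2 : 4 * ((j : ℝ) + 1) / 2 ^ j ≤
          8 * ((j : ℝ) + 2) / 2 ^ j - 8 * (((j + 1 : ℕ) : ℝ) + 2) / 2 ^ (j + 1) := by
        rw [pow_succ, div_sub_div _ _ (by positivity) (by positivity),
          div_le_div_iff₀ (by positivity) (by positivity)]
        push_cast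
        have h3 : (0 : ℝ) < 2 ^ j := by positivity
        nlinarith [mul_pos h3 h3, mul_pos (mul_pos h3 h3) h3]
      linarith
  apply summable_of_sum_range_le (c := ∑ n ∈ Finset.range (4 ^ J + 1), f n + 8 * ((J : ℝ) + 2)) hf0
  intro n
  have h1 : Finset.range n ⊆ Finset.range (4 ^ (max J n) + 1) := by
    apply Finset.range_subset_range.2
    have h2 : max J n < 4 ^ (max J n) := Nat.lt_pow_self (by norm_num)
    have h3 : n ≤ max J n := le_max_right _ _
    omega
  have h2 := Finset.sum_le_sum_of_subset_of_nonneg h1 (fun i _ _ => hf0 i)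
  have h3 := hmaj (max J n) (le_max_left _ _)
  have h4 : (0 : ℝ) ≤ 8 * (((max J n : ℕ) : ℝ) + 2) / 2 ^ (max J n) := by positivity
  linarith

end Pool.Agent.TH588.HF
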