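import Pool.Agent.H528R3.Growth
import Pool.Agent.H528R2.Dio

/-!
# Inert primes which are visible at an odd multiple

A prime `q ≡ 3 (mod 8)` for which `65` is not a square is visible at an odd index: the rank of
apparition of `q` is not divisible by `4`.
-/

set_option autoImplicit false

namespace Pool.Agent.TH588.HF

open Pool.Agent.H528R2 Pool.Agent.H528R2.Chain Pool.Agent.H528R2.DB

/-- a `q`-integral rational number whose square is congruent to the integer `c` -/
theorem isSquare_of_vge {q : ℕ} (hq : q.Prime) {x : ℚ} (hx : Vge q 0 x) {c : ℤ}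
    (h : Vge q 1 (x ^ 2 - c)) : IsSquare (c : ZMod q) := by
  have := Fact.mk hq
  have hden : ¬ (q : ℤ) ∣ (x.den : ℤ) := by
    intro hd
    have h1 : Vge q 1 (((x.den : ℕ) : ℤ) : ℚ) := gv_one_int_iff.2 hd
    have h2 : Vge q 1 ((x.num : ℤ) : ℚ) := by
      have e : ((x.num : ℤ) : ℚ) = x * (((x.den : ℕ) : ℤ) : ℚ) := by
        push_cast
        exact (Rat.mul_den_eq_num x).symm
      rw [e]
      simpa using gv_mul hx h1
    have h3 : q ∣ x.num.natAbs := Int.natCast_dvd.1 (gv_one_int_iff.1 h2)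
    have h4 : q ∣ x.den := by exact_mod_cast hd
    have h5 := Nat.dvd_gcd h3 h4
    rw [x.reduced.gcd_eq_one] at h5
    exact hq.one_lt.ne' (Nat.dvd_one.1 h5)
  have h1 : Vge q 1 (((x.num ^ 2 - c * (x.den : ℤ) ^ 2 : ℤ)) : ℚ) := by
    have e : (((x.num ^ 2 - c * (x.den : ℤ) ^ 2 : ℤ)) : ℚ) =
        ((((x.den : ℤ) ^ 2 : ℤ)) : ℚ) * (x ^ 2 - c) := by
      push_cast
      rw [← Rat.mul_den_eq_num x]
      ring
    rw [e]
    have h0 := gv_mul (gv_int (s := q) ((x.den : ℤ) ^ 2)) h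
    rwa [zero_add] at h0
  have h2 := gv_one_int_iff.1 h1
  have h3 : ((x.num ^ 2 - c * (x.den : ℤ) ^ 2 : ℤ) : ZMod q) = 0 :=
    (ZMod.intCast_zmod_eq_zero_iff_dvd _ q).2 h2
  have hd0 : ((x.den : ℤ) : ZMod q) ≠ 0 := fun h0 =>
    hden ((ZMod.intCast_zmod_eq_zero_iff_dvd _ q).1 h0)
  refine ⟨(x.num : ZMod q) / ((x.den : ℤ) : ZMod q), ?_⟩
  push_cast at h3 hd0 ⊢
  field_simp
  linear_combination -h3

/-- the class of primes: `q ≡ 3 (mod 8)`, `q ≠ 3`, and `65` is not a square modulo `q` -/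
def Goodp (q : ℕ) : Prop := q.Prime ∧ q % 8 = 3 ∧ ¬ IsSquare ((65 : ℤ) : ZMod q) ∧ 11 ≤ q

theorem Goodp.inert {q : ℕ} (h : Goodp q) : Inert q := ⟨h.1, Or.inl h.2.1⟩

/-- there is a multiple with a pole -/
theorem rk_ne_zero {s : ℕ} (hs : Inert s) (h : 7 ≤ s) : rk s ≠ 0 := by
  have : Fact s.Prime := ⟨hs.1⟩
  by_cases hp : ∃ k : ℕ, 0 < k ∧ k ≤ s + 1 ∧ padicValRat s (zz k) < 0
  · obtain ⟨k, hk0, hk1, hk2⟩ := hp
    exact (Rank.rk_min hk0 hk2).2
  push Not at hp
  let F : Fin (s + 1) → ZMod s := fun i =>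
    ((zz ((i : ℕ) + 1 : ℕ)).num : ZMod s) * ((zz ((i : ℕ) + 1 : ℕ)).den : ZMod s)⁻¹
  have hcard : Fintype.card (ZMod s) < Fintype.card (Fin (s + 1)) := by
    rw [ZMod.card, Fintype.card_fin]; omega
  obtain ⟨i, j, hij, hF⟩ := Fintype.exists_ne_map_eq_of_card_lt F hcard
  have main : ∀ a b : ℕ, 0 < a → a < b → b ≤ s + 1 →
      Vge s 1 (zz b - zz a) → rk s ≠ 0 := by
    intro a b ha hab hb hv
    have ea := hp a ha (by omega)
    have eb := hp b (by omega) hb
    have hne : zz b ≠ zz a := by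
      intro h0
      rcases (zz_eq_iff (m := (b : ℤ)) (n := (a : ℤ)) (by omega) (by omega)).1 h0 with h1 | h1 <;>
        omega
    have hex := diff_exact hs (m := (b : ℤ)) (n := (a : ℤ)) (by omega) (by omega) (by omega)
      (by omega) eb ea
    rw [if_neg (by omega), sub_zero] at hex
    have hpos : 1 ≤ padicValRat s (zz b - zz a) := hv.resolve_left (sub_ne_zero.2 hne)
    have hcase : 0 < dd s ((b : ℤ) + a) ∨ 0 < dd s ((b : ℤ) - a) := by omega
    have hdd : ∀ n : ℤ, 0 < dd s n → padicValRat s (zz n) < 0 := by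
      intro n hn
      unfold dd at hn
      by_contra hcc
      have h1 : (- padicValRat s (zz n) / 2).toNat = 0 := by
        rw [Int.toNat_eq_zero]
        omega
      omega
    rcases hcase with hc | hc
    · have hneg := hdd _ hc
      exact (Rank.rk_min (s := s) (n := b + a) (by omega) (by push_cast; exact hneg)).2
    · have hneg := hdd _ hc
      exact (Rank.rk_min (s := s) (n := b - a) (by omega)
        (by rw [Nat.cast_sub hab.le]; exact hneg)).2
  have hden : ∀ z : ℚ, 0 ≤ padicValRat s z → (z.den : ZMod s) ≠ 0 := by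
    intro z hz hd
    have hdvd : s ∣ z.den := (ZMod.natCast_eq_zero_iff _ s).1 hd
    have hd1 : Vge s 1 ((z.den : ℕ) : ℚ) := by
      have : Vge s 1 (((z.den : ℕ) : ℤ) : ℚ) := gv_one_int_iff.2 (by exact_mod_cast hdvd)
      simpa using this
    have h1 : Vge s 1 ((z.num : ℤ) : ℚ) := by
      rw [← Rat.mul_den_eq_num z]
      have := gv_mul (s := s) (k := 0) (l := 1) (x := z) (y := (z.den : ℚ)) (Or.inr hz) hd1
      simpa using this
    have h3 : s ∣ z.num.natAbs := Int.natCast_dvd.1 (gv_one_int_iff.1 h1)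
    have := Nat.dvd_gcd h3 hdvd
    rw [z.reduced.gcd_eq_one] at this
    exact hs.1.one_lt.ne' (Nat.dvd_one.1 this)
  have hres : ∀ a b : ℕ, 0 < a → a ≤ s + 1 → 0 < b → b ≤ s + 1 →
      ((zz (a : ℕ)).num : ZMod s) * ((zz (a : ℕ)).den : ZMod s)⁻¹ =
        ((zz (b : ℕ)).num : ZMod s) * ((zz (b : ℕ)).den : ZMod s)⁻¹ →
      Vge s 1 (zz b - zz a) := by
    intro a b ha ha' hb hb' he
    have ea := hp a ha ha'
    have eb := hp b hb hb'
    have da := hden _ ea
    have db := hden _ eb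
    apply Pool.Agent.H528R2.gv_sub_of_cast eb ea
    field_simp at he
    linear_combination he.symm
  rcases lt_or_gt_of_ne hij with hl | hl
  · have hl' : (i : ℕ) < (j : ℕ) := hl
    exact main (i + 1) (j + 1) (by omega) (by omega) (by omega)
      (hres _ _ (by omega) (by omega) (by omega) (by omega) hF)
  · have hl' : (j : ℕ) < (i : ℕ) := hl
    exact main (j + 1) (i + 1) (by omega) (by omega) (by omega)
      (hres _ _ (by omega) (by omega) (by omega) (by omega) hF.symm)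

/-- the duplication formula -/
theorem zz_two_mul {n : ℤ} (hn : n ≠ 0) :
    zz (2 * n) = ((zz n ^ 2 - 65) / (2 * yy n)) ^ 2 := by
  have hP : n • P0 ≠ 0 := smul_P0_ne hn
  have hy : ptY (n • P0) ≠ 0 := yy_ne hn
  obtain ⟨-, -, h1, -⟩ := pt_dbl hP hy
  have h3 : n • P0 + n • P0 = (2 * n) • P0 := by rw [two_mul, add_zsmul]
  rw [h3] at h1
  exact h1

/-- the rank of apparition of a good prime is not divisible by `4` -/
theorem not_four_dvd {q : ℕ} (h : Goodp q) : ¬ 4 ∣ rk q := by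
  rintro ⟨m, hm⟩
  have hq := h.1
  have hf : Fact q.Prime := ⟨hq⟩
  have hr := rk_ne_zero h.inert (by have := h.2.2.2; omega)
  have hm0 : 0 < m := by omega
  have hv2 : padicValRat q (2 : ℚ) = 0 := by
    have := ti_val_two_pow h.inert 1
    simpa using this
  -- no poles below the rank
  have hnp : ∀ n : ℕ, 0 < n → n < rk q → 0 ≤ padicValRat q (zz n) := by
    intro n hn0 hn
    by_contra hc
    have := (Rank.rk_min hn0 (not_le.1 hc)).1
    omega
  -- the numerator of the duplication formula is a unit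
  have hunit : ∀ n : ℕ, 0 < n → n < rk q → zz n ^ 2 - 65 ≠ 0 ∧ padicValRat q (zz n ^ 2 - 65) = 0 := by
    intro n hn0 hn
    have h1 := hnp n hn0 hn
    have hnot : ¬ Vge q 1 (zz n ^ 2 - 65) := by
      intro h2
      apply h.2.2.1
      apply isSquare_of_vge hq (Or.inr h1)
      push_cast
      exact h2
    have hge : Vge q 0 (zz n ^ 2 - 65) := by
      have h3 : Vge q 0 (zz n ^ 2) := by
        have := gv_sq (s := q) (k := 0) (x := zz n) (Or.inr h1)
        simpa using this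
      exact gv_sub h3 (gv_ofNat 65)
    have hne : zz n ^ 2 - 65 ≠ 0 := fun h0 => hnot (Or.inl h0)
    refine ⟨hne, ?_⟩
    have h4 := hge.resolve_left hne
    by_contra h5
    exact hnot (Or.inr (by omega))
  have hval : ∀ n : ℕ, 0 < n → n < rk q →
      padicValRat q (zz (2 * n : ℕ)) = - 2 * padicValRat q (yy n) := by
    intro n hn0 hn
    obtain ⟨h1, h2⟩ := hunit n hn0 hn
    have hnz : (n : ℤ) ≠ 0 := by omega
    have hy : yy n ≠ 0 := yy_ne hnz
    have e : zz ((2 * n : ℕ) : ℤ) = ((zz n ^ 2 - 65) / (2 * yy n)) ^ 2 := by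
      rw [← zz_two_mul hnz]
      push_cast
      rfl
    rw [e, padicValRat.pow, padicValRat.div h1 (mul_ne_zero two_ne_zero hy),
      padicValRat.mul two_ne_zero hy, h2, hv2]
    push_cast
    ring
  -- at `m`
  have hym : 0 ≤ padicValRat q (yy m) := by
    have hnz : (m : ℤ) ≠ 0 := by omega
    have := gv_yy (s := q) hnz (Or.inr (hnp m hm0 (by omega)))
    exact this.resolve_left (yy_ne hnz)
  have h2m := hnp (2 * m) (by omega) (by omega)
  have e1 := hval m hm0 (by omega)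
  have hz2 : padicValRat q (zz (2 * m : ℕ)) = 0 := by omega
  -- at `2 m`
  have e2 := hval (2 * m) (by omega) (by omega)
  have h4m : padicValRat q (zz (2 * (2 * m) : ℕ)) < 0 := by
    have e3 : 2 * (2 * m) = rk q := by omega
    rw [e3]
    exact Rank.rk_spec hr
  have hy2 : 1 ≤ padicValRat q (yy (2 * m : ℕ)) := by omega
  have hnz : ((2 * m : ℕ) : ℤ) ≠ 0 := by omega
  have heq : yy ((2 * m : ℕ) : ℤ) ^ 2 = zz ((2 * m : ℕ) : ℤ) ^ 3 - 2 * zz ((2 * m : ℕ) : ℤ) ^ 2 +
      65 * zz ((2 * m : ℕ) : ℤ) := pt_eq (smul_P0_ne hnz)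
  set z := zz ((2 * m : ℕ) : ℤ) with hz
  set y := yy ((2 * m : ℕ) : ℤ) with hy
  have hz0 : z ≠ 0 := (zz_pos hnz).ne'
  have hy0 : y ≠ 0 := yy_ne hnz
  have e4 : (z - 1) ^ 2 - ((-64 : ℤ) : ℚ) = y ^ 2 / z := by
    rw [heq]
    field_simp
    push_cast
    ring
  have h5 : Vge q 1 ((z - 1) ^ 2 - ((-64 : ℤ) : ℚ)) := by
    rw [e4]
    right
    rw [padicValRat.div (pow_ne_zero 2 hy0) hz0, padicValRat.pow, hz2]
    push_cast
    omega
  have h6 : IsSquare ((-64 : ℤ) : ZMod q) := by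
    apply isSquare_of_vge hq _ h5
    exact gv_sub (Or.inr (by omega)) (vge_one q)
  have h7 : IsSquare (-1 : ZMod q) := by
    obtain ⟨r, hr⟩ := h6
    have h8 : (8 : ZMod q) ≠ 0 := by
      have h9 : ((8 : ℕ) : ZMod q) ≠ 0 := by
        rw [Ne, ZMod.natCast_eq_zero_iff]
        intro hd
        have := Nat.le_of_dvd (by norm_num) hd
        have := h.2.2.2
        omega
      exact_mod_cast h9
    refine ⟨r / 8, ?_⟩
    push_cast at hr
    field_simp
    linear_combination hr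
  have h8 := ZMod.exists_sq_eq_neg_one_iff.1 h7
  have := h.2.1
  omega

/-- a good prime is visible at an odd index -/
theorem exists_odd_vis {q : ℕ} (h : Goodp q) : ∃ r : ℕ, Odd r ∧ rk q ∣ 8 * r := by
  have h4 := not_four_dvd h
  rcases Nat.even_or_odd (rk q) with he | ho
  · obtain ⟨r, hr⟩ := he
    refine ⟨r, ?_, ?_⟩
    · rw [← Nat.not_even_iff_odd]
      rintro ⟨s, hs⟩
      exact h4 ⟨s, by omega⟩
    · exact ⟨4, by omega⟩
  · exact ⟨rk q, ho, dvd_mul_left _ _⟩

/-- the residue class `171` modulo `520` consists of good primes -/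
theorem good_of_mod {q : ℕ} (hq : q.Prime) (h : q % 520 = 171) : Goodp q := by
  have hf : Fact q.Prime := ⟨hq⟩
  refine ⟨hq, by omega, ?_, by omega⟩
  have hodd : Odd q := Nat.odd_iff.2 (by omega)
  intro hs
  have h0 : ((65 : ℤ) : ZMod q) ≠ 0 := by
    rw [Ne, ZMod.intCast_zmod_eq_zero_iff_dvd]
    intro hd
    have h1 : q ∣ 65 := by exact_mod_cast hd
    have h2 := Nat.le_of_dvd (by norm_num) h1
    omega
  have h1 : legendreSym q 65 = 1 := (legendreSym.eq_one_iff q h0).2 hs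
  rw [jacobiSym.legendreSym.to_jacobiSym] at h1
  have h2 : jacobiSym ((65 : ℕ) : ℤ) q = jacobiSym (q : ℤ) 65 :=
    jacobiSym.quadratic_reciprocity_one_mod_four (by norm_num) hodd
  have h3 : jacobiSym (q : ℤ) 65 = jacobiSym (41 : ℤ) 65 := by
    apply jacobiSym.mod_left'
    push_cast
    omega
  have h4 : jacobiSym (41 : ℤ) 65 = -1 := by norm_num
  rw [h3, h4] at h2
  have h5 : jacobiSym (65 : ℤ) q = -1 := by exact_mod_cast h2
  rw [h1] at h5
  norm_num at h5

end Pool.Agent.TH588.HF
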