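import Pool.Agent.TH588.HF.Rel
import Pool.Agent.TH588.HF.Count
import Pool.Agent.H528R3.Height
import Pool.Agent.H528R3.PolyQ

/-!
# Equations in a fixed number of variables whose smallest rational solutions are huge
-/

set_option autoImplicit false

namespace Pool.Agent.TH588.HF

open Pool.Agent.H528R2 Pool.Agent.H528R2.Chain Pool.Agent.H528R2.Dio Pool.Agent.H528R3
open MvPolynomial

/-- the height of the last point -/
theorem height_large (K : ℕ) : ∃ B : ℕ, ∀ b m : ℕ, B ≤ b → 4 * K + 1 ≤ 2 ^ m → ∀ M : ℤ, Odd M →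
    8 * b ^ (2 ^ m) ≤ 3 * (UU M).card →
      2 ^ 2 ^ b ^ (4 * K) ≤ max (zz M).num.natAbs (zz M).den := by
  obtain ⟨N, hN, K₀, hK₀⟩ := ht_lower
  obtain ⟨L₀, hL₀⟩ := exists_nat_ge ((N : ℝ) * (1 + |K₀|))
  refine ⟨L₀ + 1, fun b m hb hm M ho hc => ?_⟩
  have hM0 : M ≠ 0 := by rintro rfl; simp at ho
  have hb1 : 1 ≤ b := by omega
  set T := b ^ (4 * K) with hT
  have hT1 : 1 ≤ T := Nat.one_le_pow _ _ hb1
  have h1 : T * b ≤ b ^ (2 ^ m) := by
    rw [hT, ← pow_succ]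
    exact Nat.pow_le_pow_right hb1 hm
  have h2 : T + b ≤ (UU M).card := by
    have : T + b ≤ T * b + 1 := by nlinarith
    have h3 : 1 ≤ T * b := Nat.mul_pos hT1 hb1
    omega
  have h3 : (2 : ℝ) ^ T * 2 ^ b ≤ (M.natAbs : ℝ) := by
    have h4 := pow_le hM0
    have h5 : 2 ^ (T + b) ≤ 11 ^ (UU M).card :=
      (Nat.pow_le_pow_left (by norm_num) _).trans (Nat.pow_le_pow_right (by norm_num) h2)
    rw [← pow_add]
    exact_mod_cast h5.trans h4
  have h4 : (N : ℝ) * (1 + |K₀|) ≤ 2 ^ b := by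
    have h5 : L₀ ≤ 2 ^ b := by
      have : b < 2 ^ b := Nat.lt_two_pow_self
      omega
    exact hL₀.trans (by exact_mod_cast h5)
  have hN' : (0 : ℝ) < N := by exact_mod_cast hN
  have hTr : (1 : ℝ) ≤ 2 ^ T := one_le_pow₀ (by norm_num)
  have h5 : (2 : ℝ) ^ T ≤ (M.natAbs : ℝ) / N - K₀ := by
    rw [le_sub_iff_add_le, le_div_iff₀ hN']
    have h6 := le_abs_self K₀
    have h7 := abs_nonneg K₀
    calc ((2 : ℝ) ^ T + K₀) * N ≤ (2 : ℝ) ^ T * (1 + |K₀|) * N := by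
          apply mul_le_mul_of_nonneg_right _ hN'.le
          nlinarith
      _ = 2 ^ T * ((N : ℝ) * (1 + |K₀|)) := by ring
      _ ≤ 2 ^ T * 2 ^ b := mul_le_mul_of_nonneg_left h4 (by positivity)
      _ ≤ _ := h3
  have h6 := hK₀ M.natAbs (by omega)
  have h7 : ht ((M.natAbs : ℕ) : ℤ) = ht M := by
    rcases Int.natAbs_eq M with h | h
    · rw [← h]
    · conv_rhs => rw [h]
      rw [ht_neg]
  rw [h7] at h6
  have h8 : (2 : ℝ) ^ T ≤ ht M := h5.trans h6
  unfold ht at h8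
  rw [Rat.logHeight₁_eq_log_max] at h8
  set Q := max (zz M).num.natAbs (zz M).den with hQ
  have hQ1 : 1 ≤ Q := le_max_of_le_right (zz M).den_pos
  have hQ0 : (0 : ℝ) < ((Q : ℕ) : ℝ) := by exact_mod_cast hQ1
  have h9 : ((2 ^ 2 ^ T : ℕ) : ℝ) ≤ (Q : ℝ) := by
    have h10 : (2 : ℝ) ≤ Real.exp 1 := by
      have := Real.add_one_le_exp (1 : ℝ); linarith
    have h11 : ((2 ^ 2 ^ T : ℕ) : ℝ) ≤ Real.exp ((2 : ℝ) ^ T) := by
      push_cast
      calc (2 : ℝ) ^ 2 ^ T ≤ (Real.exp 1) ^ 2 ^ T := pow_le_pow_left₀ (by norm_num) h10 _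
        _ = Real.exp (((2 ^ T : ℕ) : ℝ)) := by rw [← Real.exp_nat_mul, mul_one]
        _ = _ := by push_cast; rfl
    refine h11.trans ?_
    rw [← Real.le_log_iff_exp_le hQ0]
    exact h8
  exact_mod_cast h9

/-- numbers with many good prime factors -/
theorem exists_number (A : ℕ) : ∃ a b : ℕ, A ≤ a ∧ A ≤ b ∧ 0 < a ∧ 5 ≤ b ∧ Nat.log 2 a ≤ b ^ 4 ∧
    8 * b ≤ 3 * (VV (a : ℚ)).card ∧ ∃ S : Finset ℕ, (∀ q ∈ S, Goodp q) ∧
      ∀ q, Inert q → Odd (padicValRat q (a : ℚ)) → q ∈ S := by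
  obtain ⟨j, hj, hcard⟩ := many_primes (q := 520) (a := 171) (by norm_num) (by norm_num)
    (by norm_num) (4 * A + 6)
  set S := prs 520 171 j with hS
  have hgood : ∀ q ∈ S, Goodp q := by
    intro q hq
    rw [hS, mem_prs] at hq
    exact good_of_mod hq.2.1 hq.2.2
  obtain ⟨hsq, hdvd⟩ := ti_prod_primes S (fun q hq => (hgood q hq).1)
  set a := ∏ q ∈ S, q with ha
  set N := S.card with hN
  have ha0 : a ≠ 0 := hsq.ne_zero
  have ha0' : (a : ℚ) ≠ 0 := by exact_mod_cast ha0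
  have hval : ∀ q, q.Prime → (Odd (padicValRat q (a : ℚ)) ↔ q ∈ S) := by
    intro q hq
    rw [ti_val_squarefree hsq hq, ← hdvd q hq]
    split_ifs with h
    · simp [h]
    · simp [h]
  have hjj : j < 2 ^ j := Nat.lt_two_pow_self
  have hN64 : 64 ≤ N := by
    have : 2 ^ 6 ≤ 2 ^ j := Nat.pow_le_pow_right (by norm_num) (by omega)
    omega
  have haN : N ≤ a := by
    have h1 : 2 ^ N ≤ a := by
      rw [hN, ← Finset.prod_const, ha]
      exact Finset.prod_le_prod' fun q hq => (hgood q hq).1.two_le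
    have h2 : N < 2 ^ N := Nat.lt_two_pow_self
    omega
  refine ⟨a, N / 4, by omega, by omega, by omega, by omega, ?_, ?_, S, hgood,
    fun q hq ho => (hval q hq.1).1 ho⟩
  · have h1 : a ≤ 2 ^ (2 * j * N) := by
      calc a ≤ ∏ q ∈ S, 4 ^ j := by
            rw [ha]
            exact Finset.prod_le_prod' fun q hq => (mem_prs.1 hq).1
        _ = (4 ^ j) ^ N := by rw [Finset.prod_const]
        _ = 2 ^ (2 * j * N) := by
            rw [← pow_mul, show (4 : ℕ) = 2 ^ 2 by norm_num, ← pow_mul]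
            congr 1
            ring
    have h2 : Nat.log 2 a ≤ 2 * j * N := by
      calc Nat.log 2 a ≤ Nat.log 2 (2 ^ (2 * j * N)) := Nat.log_mono_right h1
        _ = _ := Nat.log_pow (by norm_num) _
    have h3 : 2 * j * N ≤ 2 * N * N := by
      apply Nat.mul_le_mul_right
      omega
    have h4 : 2 * N * N ≤ (N / 4) ^ 4 := by
      obtain ⟨c, hc⟩ : ∃ c, c = N / 4 := ⟨_, rfl⟩
      have h5 : N ≤ 4 * c + 3 := by omega
      have h6 : 16 ≤ c := by omega
      rw [← hc]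
      have h7 : 2 * N * N ≤ 2 * (5 * c) * (5 * c) := by
        apply Nat.mul_le_mul
        · omega
        · omega
      have h8 : 50 ≤ c * c := by nlinarith
      calc 2 * N * N ≤ 50 * (c * c) := by nlinarith
        _ ≤ (c * c) * (c * c) := Nat.mul_le_mul_right _ h8
        _ = c ^ 4 := by ring
    omega
  · have hsub : S ⊆ VV (a : ℚ) := by
      intro q hq
      rw [mem_VV ha0']
      exact ⟨(hgood q hq).inert, (hgood q hq).2.2.2, (hval q (hgood q hq).1).2 hq⟩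
    have := Finset.card_le_card hsub
    omega

/-- one polynomial with a parameter `a` -/
theorem fixed_dimension (K : ℕ) : ∃ (n : ℕ) (p : MvPolynomial (Fin (n + 1)) ℤ),
    p.totalDegree ≤ 4 ∧ ∀ A : ℕ, ∃ a : ℕ, A ≤ a ∧
      (∃ x : Fin n → ℚ, aeval (Fin.cons (a : ℚ) x : Fin (n + 1) → ℚ) p = 0) ∧
      ∀ x : Fin n → ℚ, aeval (Fin.cons (a : ℚ) x : Fin (n + 1) → ℚ) p = 0 →
        ∃ i, 2 ^ 2 ^ (Nat.log 2 a) ^ K ≤ max (x i).num.natAbs (x i).den := by
  obtain ⟨B, hB⟩ := height_large K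
  set m := 4 * K + 1 with hm
  obtain ⟨r, hr⟩ := DioQ.poly (dio_RC m)
  obtain ⟨p, hd, -, hp⟩ := hr r le_rfl
  let e : Fin 3 ⊕ Fin r ≃ Fin (2 + r + 1) := finSumFinEquiv.trans (finCongr (by omega))
  have e0 : e (Sum.inl 0) = 0 := by
    apply Fin.ext
    simp [e]
  have e1 : e (Sum.inl 1) = Fin.succ ⟨0, by omega⟩ := by
    apply Fin.ext
    simp only [e, Equiv.trans_apply, finSumFinEquiv_apply_left, finCongr_apply, Fin.val_succ]
    rfl
  refine ⟨2 + r, rename e p, (totalDegree_rename_le _ _).trans hd, fun A => ?_⟩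
  obtain ⟨a, b, h1, h2, h3, h4, h5, h6, S, h7, h8⟩ := exists_number (A + B)
  have ha0 : (a : ℚ) ≠ 0 := by exact_mod_cast h3.ne'
  refine ⟨a, by omega, ?_, ?_⟩
  · obtain ⟨M, ho, hM⟩ := rC_complete ha0 S h7 h8 m
    obtain ⟨y, hy⟩ := (hp ![(a : ℚ), zz M, yy M]).1 (by simpa using hM)
    refine ⟨fun i => Sum.elim ![(a : ℚ), zz M, yy M] y (e.symm i.succ), ?_⟩
    have e2 : (Fin.cons (a : ℚ) (fun i : Fin (2 + r) =>
        Sum.elim ![(a : ℚ), zz M, yy M] y (e.symm i.succ)) : Fin (2 + r + 1) → ℚ) =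
        Sum.elim ![(a : ℚ), zz M, yy M] y ∘ e.symm := by
      funext i
      refine Fin.cases ?_ (fun i => ?_) i
      · have : e.symm 0 = Sum.inl 0 := by rw [← e0, Equiv.symm_apply_apply]
        simp [this]
      · simp
    rw [e2, aeval_rename, Function.comp_assoc, Equiv.symm_comp_self, Function.comp_id]
    exact hy
  · intro x hx
    rw [aeval_rename] at hx
    set v : Fin (2 + r + 1) → ℚ := Fin.cons (a : ℚ) x with hv
    have e3 : v ∘ e = Sum.elim (fun i => v (e (Sum.inl i))) (fun j => v (e (Sum.inr j))) := by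
      funext i
      rcases i with i | i <;> rfl
    rw [e3] at hx
    have h9 : RC m (v (e (Sum.inl 0))) (v (e (Sum.inl 1))) (v (e (Sum.inl 2))) :=
      (hp _).2 ⟨_, hx⟩
    have e4 : v (e (Sum.inl 0)) = a := by rw [e0, hv]; rfl
    rw [e4] at h9
    obtain ⟨M, ho, e5, -, hc⟩ := rC_sound ha0 b h4 h6 m _ _ h9
    refine ⟨⟨0, by omega⟩, ?_⟩
    have e6 : v (e (Sum.inl 1)) = x ⟨0, by omega⟩ := by
      rw [e1, hv]
      exact Fin.cons_succ _ _ _
    rw [← e6, e5]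
    have h10 := hB b m (by omega) (by rw [hm]; exact Nat.lt_two_pow_self.le) M ho hc
    refine le_trans ?_ h10
    apply Nat.pow_le_pow_right (by norm_num)
    apply Nat.pow_le_pow_right (by norm_num)
    calc (Nat.log 2 a) ^ K ≤ (b ^ 4) ^ K := Nat.pow_le_pow_left h5 K
      _ = b ^ (4 * K) := by rw [pow_mul]

end Pool.Agent.TH588.HF
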