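import Pool.Agent.H528R3.PolyQ

/-!
# Chains of relations which start with a parameter
-/

set_option autoImplicit false

namespace Pool.Agent.TH588.HF

open Pool.Agent.H528R2 Pool.Agent.NPC Pool.Agent.H528R3 MvPolynomial

/-- a chain of relations with a parameter is defined by one polynomial equation of linear size -/
theorem chain_poly_param {R₀ : (Fin 3 → ℚ) → Prop} {R₁ : (Fin 4 → ℚ) → Prop} (h₀ : DioQ 3 R₀)
    (h₁ : DioQ 4 R₁) : ∃ r : ℕ, ∃ B : ℤ, ∀ m : ℕ,
      ∃ p : MvPolynomial (Option (Fin (m + 1) × (Fin 2 ⊕ Fin r))) ℤ, p.totalDegree ≤ 4 ∧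
        l1 p ≤ B * (m + 1) ∧
        ∀ (a : ℚ) (s : ℕ → Fin 2 → ℚ), (R₀ ![a, s 0 0, s 0 1] ∧
          ∀ i < m, R₁ ![s i 0, s i 1, s (i + 1) 0, s (i + 1) 1]) ↔
          ∃ x : Option (Fin (m + 1) × (Fin 2 ⊕ Fin r)) → ℚ, x none = a ∧
            (∀ i : Fin (m + 1), ∀ j, x (some (i, Sum.inl j)) = s i j) ∧ aeval x p = 0 := by
  obtain ⟨r₀, hr₀⟩ := DioQ.poly h₀
  obtain ⟨r₁, hr₁⟩ := DioQ.poly h₁
  obtain ⟨r, hle₀, hle₁⟩ : ∃ r, r₀ ≤ r ∧ r₁ ≤ r := ⟨_, le_max_left _ _, le_max_right _ _⟩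
  obtain ⟨p₀, hd₀, hn₀, hp₀⟩ := hr₀ r hle₀
  obtain ⟨p₁, hd₁, hn₁, hp₁⟩ := hr₁ r hle₁
  refine ⟨r, l1 p₀ + l1 p₁, fun m => ?_⟩
  set g₀ : Fin 3 ⊕ Fin r → Option (Fin (m + 1) × (Fin 2 ⊕ Fin r)) := fun b =>
    match b with
    | Sum.inl j => ![none, some (0, Sum.inl 0), some (0, Sum.inl 1)] j
    | Sum.inr j => some (0, Sum.inr j) with hg₀
  set g₁ : Fin m → (Fin 4 ⊕ Fin r → Option (Fin (m + 1) × (Fin 2 ⊕ Fin r))) := fun i b =>
    match b with
    | Sum.inl j => ![some (i.castSucc, Sum.inl 0), some (i.castSucc, Sum.inl 1),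
        some (i.succ, Sum.inl 0), some (i.succ, Sum.inl 1)] j
    | Sum.inr j => some (i.succ, Sum.inr j) with hg₁
  refine ⟨rename g₀ p₀ + ∑ i : Fin m, rename (g₁ i) p₁, ?_, ?_, ?_⟩
  · refine (totalDegree_add _ _).trans (max_le ((totalDegree_rename_le _ _).trans hd₀) ?_)
    refine (totalDegree_finsetSum _ _).trans (Finset.sup_le fun i _ => ?_)
    exact (totalDegree_rename_le _ _).trans hd₁
  · have e1 := l1_rename g₀ p₀
    have e2 : l1 (∑ i : Fin m, rename (g₁ i) p₁) ≤ m * l1 p₁ := by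
      refine (l1_sum _ _).trans ((Finset.sum_le_sum fun i _ => l1_rename (g₁ i) p₁).trans ?_)
      simp
    have e3 := l1_add (rename g₀ p₀) (∑ i : Fin m, rename (g₁ i) p₁)
    have e4 := l1_nonneg p₀
    have e5 := l1_nonneg p₁
    have e6 : (0 : ℤ) ≤ m := by positivity
    nlinarith [mul_nonneg e6 e4]
  · intro a s
    have heval : ∀ x : Option (Fin (m + 1) × (Fin 2 ⊕ Fin r)) → ℚ,
        aeval x (rename g₀ p₀ + ∑ i : Fin m, rename (g₁ i) p₁) = 0 ↔
          aeval (x ∘ g₀) p₀ = 0 ∧ ∀ i : Fin m, aeval (x ∘ g₁ i) p₁ = 0 := by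
      intro x
      rw [map_add, map_sum, aeval_rename]
      have : ∀ i ∈ Finset.univ, 0 ≤ (aeval x) (rename (g₁ i) p₁) := by
        intro i _
        rw [aeval_rename]
        exact hn₁ _
      rw [add_eq_zero_iff_of_nonneg (hn₀ _) (Finset.sum_nonneg this),
        Finset.sum_eq_zero_iff_of_nonneg this]
      simp only [aeval_rename, Finset.mem_univ, forall_true_left]
    constructor
    · rintro ⟨hs0, hs1⟩
      obtain ⟨y₀, hy₀⟩ := (hp₀ _).1 hs0
      have : ∀ i : Fin m, ∃ y : Fin r → ℚ,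
          aeval (Sum.elim ![s i 0, s i 1, s (i + 1) 0, s (i + 1) 1] y) p₁ = 0 :=
        fun i => (hp₁ _).1 (hs1 i i.2)
      choose y₁ hy₁ using this
      refine ⟨fun b => match b with
        | none => a
        | some (i, Sum.inl j) => s i j
        | some (i, Sum.inr j) => Fin.cases (motive := fun _ => ℚ) (y₀ j) (fun i' => y₁ i' j) i,
        rfl, fun i j => rfl, ?_⟩
      rw [heval]
      constructor
      · rw [← hy₀]
        congr 1
        congr 1
        funext b
        rcases b with j | j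
        · fin_cases j <;> rfl
        · rfl
      · intro i
        rw [← hy₁ i]
        congr 1
        congr 1
        funext b
        rcases b with j | j
        · fin_cases j <;> rfl
        · rfl
    · rintro ⟨x, hxa, hx, hx0⟩
      rw [heval] at hx0
      constructor
      · rw [hp₀]
        refine ⟨fun j => x (some (0, Sum.inr j)), ?_⟩
        rw [← hx0.1]
        congr 1
        congr 1
        funext b
        rcases b with j | j
        · fin_cases j
          · exact hxa.symm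
          · exact (hx 0 0).symm
          · exact (hx 0 1).symm
        · rfl
      · intro i hi
        rw [hp₁]
        refine ⟨fun j => x (some ((⟨i, hi⟩ : Fin m).succ, Sum.inr j)), ?_⟩
        rw [← hx0.2 ⟨i, hi⟩]
        congr 1
        congr 1
        funext b
        rcases b with j | j
        · fin_cases j
          · exact (hx (⟨i, hi⟩ : Fin m).castSucc 0).symm
          · exact (hx (⟨i, hi⟩ : Fin m).castSucc 1).symm
          · exact (hx (⟨i, hi⟩ : Fin m).succ 0).symm
          · exact (hx (⟨i, hi⟩ : Fin m).succ 1).symm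
        · rfl

end Pool.Agent.TH588.HF
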