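import Pool.Agent.TH588.HF.Good
import Pool.Agent.H528R3.Rel

/-!
# The Diophantine relation between a number and an index divisible by its prime factors
-/

set_option autoImplicit false

namespace Pool.Agent.TH588.HF

open Pool.Agent.H528R2 Pool.Agent.H528R2.Chain Pool.Agent.H528R2.Dio Pool.Agent.H528R3

/-- the relation between `a` and an odd multiple `M P₀ = (z, y)` such that `M` is divisible by the
inert primes at which `a` has an odd valuation -/
def AR (a z y : ℚ) : Prop :=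
  On z y ∧ IsSquare (5 * z) ∧ ∃ x u b b' w c c' s r : ℚ, On x u ∧ IsSquare (5 * x) ∧
    Oct x u b b' ∧ w * b = 1 ∧ Oct z y c c' ∧ s * c = b ∧ r = nrm s ∧ Test a w ∧ Test a r

theorem aR_sound {a z y : ℚ} (ha : a ≠ 0) (h : AR a z y) :
    ∃ M : ℤ, Odd M ∧ z = zz M ∧ y = yy M ∧
      ∀ q, Inert q → Odd (padicValRat q a) → (q : ℤ) ∣ M := by
  obtain ⟨⟨hz, hc⟩, hs, x, u, b, b', w, c, c', s, r, ⟨hx, hcx⟩, hsx, o1, e1, o2, e2, e3, t1, t2⟩ := h
  obtain ⟨M, hM, rfl, rfl⟩ := generator hz hc (Or.inr hs)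
  obtain ⟨N, hN, rfl, rfl⟩ := generator hx hcx (Or.inr hsx)
  have hMo := (odd_iff hM).2 hs
  have h8N := eight_ne hN
  have h8M := eight_ne hM
  have hzN := Chain.zz_ne h8N
  have hzM := Chain.zz_ne h8M
  obtain ⟨rfl, rfl⟩ := (oct_iff hN b b').1 o1
  obtain ⟨rfl, rfl⟩ := (oct_iff hM c c').1 o2
  obtain rfl := (eq_div_iff hzN).2 e1
  obtain rfl := (eq_div_iff hzM).2 e2
  subst e3
  refine ⟨M, hMo, rfl, rfl, fun q hq hodd => ?_⟩
  have v1 : Vis q N := (inv_zz_iff hq.1 hN).1 ((test_iff ha).1 t1 q hq hodd)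
  have v2 : Hi q N M := (quot_iff hq hN hM v1).1
    ((vge_one_nrm hq).1 ((test_iff ha).1 t2 q hq hodd))
  have v3 := v2.dvd
  refine dvd_trans ?_ v3
  exact_mod_cast dvd_pow_self q (Nat.succ_ne_zero _)

theorem aR_complete {a : ℚ} (ha : a ≠ 0) {N M : ℤ} (hN : Odd N) (hM : Odd M)
    (h : ∀ q, Inert q → Odd (padicValRat q a) → Vis q N ∧ Hi q N M) : AR a (zz M) (yy M) := by
  have hN0 : N ≠ 0 := by rintro rfl; simp at hN
  have hM0 : M ≠ 0 := by rintro rfl; simp at hM
  have h8N := eight_ne hN0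
  have h8M := eight_ne hM0
  have hzN := Chain.zz_ne h8N
  have hzM := Chain.zz_ne h8M
  refine ⟨zz_on hM0, (odd_iff hM0).1 hM, zz N, yy N, zz (8 * N), yy (8 * N), 1 / zz (8 * N),
    zz (8 * M), yy (8 * M), zz (8 * N) / zz (8 * M), _, zz_on hN0, (odd_iff hN0).1 hN,
    (oct_iff hN0 _ _).2 ⟨rfl, rfl⟩, one_div_mul_cancel hzN, (oct_iff hM0 _ _).2 ⟨rfl, rfl⟩,
    div_mul_cancel₀ _ hzM, rfl, ?_, ?_⟩
  · rw [test_iff ha]
    intro q hq hodd
    exact (inv_zz_iff hq.1 hN0).2 (h q hq hodd).1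
  · rw [test_iff ha]
    intro q hq hodd
    rw [vge_one_nrm hq]
    exact (quot_iff hq hN0 hM0 (h q hq hodd).1).2 (h q hq hodd).2

theorem dq_AR {f g h : (ℕ → ℚ) → ℚ} (hf : PF f) (hg : PF g) (hh : PF h) :
    DQ (fun v => AR (f v) (g v) (h v)) := by
  have hf' := hf.shift.shift.shift.shift.shift.shift.shift.shift.shift
  have hg' := hg.shift.shift.shift.shift.shift.shift.shift.shift.shift
  have hh' := hh.shift.shift.shift.shift.shift.shift.shift.shift.shift
  unfold AR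
  refine (dq_On hg hh).and ((DQ.isSquare ((PF.lit 5).mul hg)).and ?_)
  refine DQ.ex (DQ.ex (DQ.ex (DQ.ex (DQ.ex (DQ.ex (DQ.ex (DQ.ex (DQ.ex ?_))))))))
  refine (dq_On (PF.var _) (PF.var _)).and ?_
  refine (DQ.isSquare ((PF.lit 5).mul (PF.var _))).and ?_
  refine (dq_Oct (PF.var _) (PF.var _) (PF.var _) (PF.var _)).and ?_
  refine (DQ.eq ((PF.var _).mul (PF.var _)) PF.one).and ?_
  refine (dq_Oct hg' hh' (PF.var _) (PF.var _)).and ?_
  refine (DQ.eq ((PF.var _).mul (PF.var _)) (PF.var _)).and ?_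
  refine (dq_nrm (PF.var _) (PF.var _)).and ?_
  exact (dq_test hf' (PF.var _)).and (dq_test hf' (PF.var _))

theorem dq_step {f g h k : (ℕ → ℚ) → ℚ} (hf : PF f) (hg : PF g) (hh : PF h) (hk : PF k) :
    DQ (fun v => StepR (f v) (g v) (h v) (k v)) := by
  have hf' := hf.shift.shift.shift.shift.shift.shift.shift.shift.shift
  have hg' := hg.shift.shift.shift.shift.shift.shift.shift.shift.shift
  have hh' := hh.shift.shift.shift.shift.shift.shift.shift.shift.shift
  have hk' := hk.shift.shift.shift.shift.shift.shift.shift.shift.shift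
  unfold StepR
  refine (dq_On hh hk).and ((DQ.isSquare ((PF.lit 5).mul hh)).and ?_)
  refine DQ.ex (DQ.ex (DQ.ex (DQ.ex (DQ.ex (DQ.ex (DQ.ex (DQ.ex (DQ.ex ?_))))))))
  refine (dq_Oct hf' hg' (PF.var _) (PF.var _)).and ?_
  refine (dq_Oct hh' hk' (PF.var _) (PF.var _)).and ?_
  refine (DQ.eq ((PF.var _).mul (PF.var _)) (PF.var _)).and ?_
  refine (DQ.eq ((PF.var _).mul (PF.var _)) PF.one).and ?_
  refine (DQ.eq ((PF.var _).mul (PF.var _)) (PF.var _)).and ?_
  refine (dq_hst (PF.var _) (PF.var _) PF.one (PF.var _)).and ?_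
  refine (dq_nrm (PF.var _) (PF.var _)).and ?_
  exact dq_test (PF.var _) ((PF.var _).mul (PF.var _))

/-- a chain of `m` steps which starts with the prime factors of `a` -/
def RC : ℕ → ℚ → ℚ → ℚ → Prop
  | 0, a, z, y => AR a z y
  | (m + 1), a, z, y => ∃ z' y' : ℚ, RC m a z' y' ∧ StepR z' y' z y

theorem dq_RC (m : ℕ) : ∀ {f g h : (ℕ → ℚ) → ℚ}, PF f → PF g → PF h →
    DQ (fun v => RC m (f v) (g v) (h v)) := by
  induction m with
  | zero =>
    intro f g h hf hg hh
    exact dq_AR hf hg hh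
  | succ m ih =>
    intro f g h hf hg hh
    unfold RC
    refine DQ.ex (DQ.ex ?_)
    exact (ih hf.shift.shift (PF.var _) (PF.var _)).and
      (dq_step (PF.var _) (PF.var _) hg.shift.shift hh.shift.shift)

theorem dio_RC (m : ℕ) : DioQ 3 (fun x => RC m (x 0) (x 1) (x 2)) := by
  refine DQ.dioQ (P := fun x : Fin 3 → ℚ => RC m (x 0) (x 1) (x 2)) ?_
  exact dq_RC m (PF.var _) (PF.var _) (PF.var _)

/-- the inert primes `≥ 11` at which `a` has an odd valuation -/
noncomputable def VV (a : ℚ) : Finset ℕ :=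
  haveI : DecidablePred (fun q : ℕ => Inert q ∧ 11 ≤ q ∧ Odd (padicValRat q a)) :=
    Classical.decPred _
  (a.num.natAbs * a.den).primeFactors.filter (fun q => Inert q ∧ 11 ≤ q ∧ Odd (padicValRat q a))

theorem mem_VV {a : ℚ} (ha : a ≠ 0) {q : ℕ} :
    q ∈ VV a ↔ Inert q ∧ 11 ≤ q ∧ Odd (padicValRat q a) := by
  unfold VV
  simp only [Finset.mem_filter]
  constructor
  · exact fun h => h.2
  · intro h
    refine ⟨?_, h⟩
    have hf := Fact.mk h.1.1
    have hnum : a.num.natAbs ≠ 0 := by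
      rw [Int.natAbs_ne_zero]
      exact Rat.num_ne_zero.2 ha
    rw [Nat.mem_primeFactors]
    refine ⟨h.1.1, ?_, mul_ne_zero hnum a.den_ne_zero⟩
    by_contra hnd
    rw [h.1.1.dvd_mul, not_or] at hnd
    have h1 : padicValRat q a = 0 := by
      unfold padicValRat padicValInt
      rw [padicValNat.eq_zero_of_not_dvd hnd.1, padicValNat.eq_zero_of_not_dvd hnd.2]
      rfl
    have h2 := h.2.2
    rw [h1] at h2
    exact absurd h2 (by decide)

/-- the number of primes after `m` steps -/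
theorem rC_sound {a : ℚ} (ha : a ≠ 0) (b : ℕ) (hb : 5 ≤ b) (hc : 8 * b ≤ 3 * (VV a).card) (m : ℕ) :
    ∀ z y : ℚ, RC m a z y → ∃ M : ℤ, Odd M ∧ z = zz M ∧ y = yy M ∧
      8 * b ^ (2 ^ m) ≤ 3 * (UU M).card := by
  induction m with
  | zero =>
    intro z y h
    obtain ⟨M, ho, e1, e2, h1⟩ := aR_sound ha h
    refine ⟨M, ho, e1, e2, ?_⟩
    have hM0 : M ≠ 0 := by rintro rfl; simp at ho
    have hsub : VV a ⊆ UU M := by
      intro q hq
      have hq := (mem_VV ha).1 hq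
      rw [mem_UU hM0]
      exact ⟨hq.1, hq.2.1, h1 q hq.1 hq.2.2⟩
    have := Finset.card_le_card hsub
    simp only [pow_zero, pow_one]
    omega
  | succ m ih =>
    intro z y h
    obtain ⟨z', y', h1, h2⟩ := h
    obtain ⟨M, ho, rfl, rfl, hM⟩ := ih z' y' h1
    have hM0 : M ≠ 0 := by rintro rfl; simp at ho
    obtain ⟨M', ho', e1, e2, h3⟩ := (stepR_iff hM0 z y).1 h2
    have hM0' : M' ≠ 0 := by rintro rfl; simp at ho'
    refine ⟨M', ho', e1, e2, ?_⟩
    have h4 := card_growth ho hM0' h3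
    set c := (UU M).card with hc'
    set c' := (UU M').card with hc''
    set e := b ^ (2 ^ m) with he
    have he5 : 5 ≤ e := by
      calc 5 ≤ b := hb
        _ = b ^ 1 := (pow_one b).symm
        _ ≤ b ^ (2 ^ m) := Nat.pow_le_pow_right (by omega) Nat.one_le_two_pow
    have e6 : b ^ (2 ^ (m + 1)) = e * e := by
      rw [he, ← pow_add]; congr 1; ring
    rw [e6]
    nlinarith

/-- completeness for the numbers whose relevant prime factors are visible at odd indices -/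
theorem rC_complete {a : ℚ} (ha : a ≠ 0) (S : Finset ℕ) (hS : ∀ q ∈ S, Goodp q)
    (h : ∀ q, Inert q → Odd (padicValRat q a) → q ∈ S) (m : ℕ) :
    ∃ M : ℤ, Odd M ∧ RC m a (zz M) (yy M) := by
  induction m with
  | zero =>
    have hch : ∀ q : ℕ, ∃ r : ℕ, Odd r ∧ (q ∈ S → rk q ∣ 8 * r) := by
      intro q
      by_cases hq : q ∈ S
      · obtain ⟨r, h1, h2⟩ := exists_odd_vis (hS q hq)
        exact ⟨r, h1, fun _ => h2⟩
      · exact ⟨1, odd_one, fun h => absurd h hq⟩
    choose r hr1 hr2 using hch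
    have hodd : ∀ q ∈ S, Odd q := by
      intro q hq
      exact Nat.odd_iff.2 (by have := (hS q hq).2.1; omega)
    have hNo : Odd (∏ q ∈ S, r q) := by
      refine Finset.prod_induction _ (fun x => Odd x) (fun a b ha hb => ha.mul hb) (by simp) ?_
      intro q hq; exact hr1 q
    have hQo : Odd (∏ q ∈ S, q) := by
      refine Finset.prod_induction _ (fun x => Odd x) (fun a b ha hb => ha.mul hb) (by simp) ?_
      intro q hq; exact hodd q hq
    set N : ℕ := ∏ q ∈ S, r q with hN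
    set Q : ℕ := ∏ q ∈ S, q with hQ
    have hN0 : N ≠ 0 := by rintro h0; rw [h0] at hNo; simp at hNo
    have hQ0 : Q ≠ 0 := by rintro h0; rw [h0] at hQo; simp at hQo
    refine ⟨((N * Q : ℕ) : ℤ), by exact_mod_cast hNo.mul hQo, ?_⟩
    refine aR_complete ha (N := (N : ℤ)) (by exact_mod_cast hNo)
      (by exact_mod_cast hNo.mul hQo) ?_
    intro q hq hod
    have hqS := h q hq hod
    have hv : Vis q (N : ℤ) := by
      unfold Vis
      have h1 := hr2 q hqS
      have h2 : 8 * r q ∣ 8 * N := mul_dvd_mul_left 8 (Finset.dvd_prod_of_mem _ hqS)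
      exact_mod_cast h1.trans h2
    refine ⟨hv, Vis.of_dvd hv (by push_cast; exact dvd_mul_right _ _), ?_⟩
    have hf := Fact.mk hq.1
    have hN0' : (N : ℤ) ≠ 0 := by exact_mod_cast hN0
    have hQ0' : (Q : ℤ) ≠ 0 := by exact_mod_cast hQ0
    rw [Nat.cast_mul, padicValInt.mul hN0' hQ0']
    have h1 : (q : ℤ) ^ 1 ∣ (Q : ℤ) := by
      rw [pow_one]
      exact_mod_cast Finset.dvd_prod_of_mem _ hqS
    rw [padicValInt_dvd_iff] at h1
    have := h1.resolve_left hQ0'
    omega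
  | succ m ih =>
    obtain ⟨M, ho, hM⟩ := ih
    have hM0 : M ≠ 0 := by rintro rfl; simp at ho
    obtain ⟨M', ho', hx⟩ := exists_next hM0 ho
    exact ⟨M', ho', _, _, hM, (stepR_iff hM0 _ _).2 ⟨M', ho', rfl, rfl, hx⟩⟩

end Pool.Agent.TH588.HF
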