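import Pool.Agent.TH588.HF.Main
import Pool.Agent.TH588.HF.PolyP
import Pool.Agent.H528R3.Huge

/-!
# Growth in a fixed number of variables, uniformly in the number of variables
-/

set_option autoImplicit false

namespace Pool.Agent.TH588.HF

open Pool.Agent.H528R2 Pool.Agent.H528R2.Chain Pool.Agent.H528R2.Dio Pool.Agent.H528R3
open MvPolynomial

theorem dio_AR : DioQ 3 (fun x => AR (x 0) (x 1) (x 2)) := by
  refine DQ.dioQ (P := fun x : Fin 3 → ℚ => AR (x 0) (x 1) (x 2)) ?_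
  exact dq_AR (PF.var _) (PF.var _) (PF.var _)

theorem rC_of_chain {a : ℚ} (s : ℕ → Fin 2 → ℚ) (h0 : AR a (s 0 0) (s 0 1)) : ∀ m : ℕ,
    (∀ i < m, StepR (s i 0) (s i 1) (s (i + 1) 0) (s (i + 1) 1)) → RC m a (s m 0) (s m 1) := by
  intro m
  induction m with
  | zero => intro _; exact h0
  | succ m ih =>
    intro h
    exact ⟨_, _, ih fun i hi => h i (by omega), h m (by omega)⟩

theorem chain_of_rC {a : ℚ} : ∀ (m : ℕ) (z y : ℚ), RC m a z y → ∃ s : ℕ → Fin 2 → ℚ,
    AR a (s 0 0) (s 0 1) ∧ (∀ i < m, StepR (s i 0) (s i 1) (s (i + 1) 0) (s (i + 1) 1)) ∧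
      s m 0 = z ∧ s m 1 = y := by
  intro m
  induction m with
  | zero =>
    intro z y h
    exact ⟨fun _ => ![z, y], h, fun i hi => absurd hi (by omega), rfl, rfl⟩
  | succ m ih =>
    rintro z y ⟨z', y', h1, h2⟩
    obtain ⟨s, e0, e1, rfl, rfl⟩ := ih z' y' h1
    refine ⟨fun i => if i ≤ m then s i else ![z, y], ?_, fun i hi => ?_, ?_, ?_⟩
    · simpa using e0
    · by_cases him : i + 1 ≤ m
      · simp only [if_pos him, if_pos (show i ≤ m by omega)]
        exact e1 i (by omega)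
      · obtain rfl : i = m := by omega
        simp only [if_neg him, if_pos le_rfl]
        exact h2
    · simp
    · simp

/-- one polynomial with a parameter `a` for every `m`, of size linear in `m` -/
theorem uniform_growth : ∃ C : ℕ, ∀ m : ℕ, ∃ p : MvPolynomial (Fin (C * (m + 1) + 1)) ℤ,
    p.totalDegree ≤ 4 ∧ ∑ t ∈ p.support, |p.coeff t| ≤ C * (m + 1) ∧
    ∀ A : ℕ, ∃ a : ℕ, A ≤ a ∧
      (∃ x : Fin (C * (m + 1)) → ℚ,
        aeval (Fin.cons (a : ℚ) x : Fin (C * (m + 1) + 1) → ℚ) p = 0) ∧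
      ∀ x : Fin (C * (m + 1)) → ℚ,
        aeval (Fin.cons (a : ℚ) x : Fin (C * (m + 1) + 1) → ℚ) p = 0 →
          ∃ i, 2 ^ 2 ^ (Nat.log 2 a) ^ (2 ^ m) ≤ max (x i).num.natAbs (x i).den := by
  obtain ⟨r, B, hr⟩ := chain_poly_param dio_AR dio_step
  refine ⟨4 * (2 + r) + 4 * B.toNat, fun m => ?_⟩
  set C := 4 * (2 + r) + 4 * B.toNat with hC
  obtain ⟨L, hL⟩ := height_large (2 ^ m)
  obtain ⟨p, hd, hl, hp⟩ := hr (m + 3)
  have hcard : Fintype.card (Fin (m + 3 + 1) × (Fin 2 ⊕ Fin r)) ≤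
      Fintype.card (Fin (C * (m + 1))) := by
    simp only [Fintype.card_prod, Fintype.card_sum, Fintype.card_fin]
    calc (m + 3 + 1) * (2 + r) ≤ (4 * (m + 1)) * (2 + r) := Nat.mul_le_mul_right _ (by omega)
      _ = (4 * (2 + r)) * (m + 1) := by ring
      _ ≤ C * (m + 1) := Nat.mul_le_mul_right _ (by omega)
  obtain ⟨e⟩ := Function.Embedding.nonempty_of_card_le hcard
  set ι : Option (Fin (m + 3 + 1) × (Fin 2 ⊕ Fin r)) → Fin (C * (m + 1) + 1) :=
    fun o => o.elim 0 (fun i => (e i).succ) with hι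
  have hinj : Function.Injective ι := by
    intro x y hxy
    rcases x with _ | x <;> rcases y with _ | y
    · rfl
    · exact absurd hxy (Fin.succ_ne_zero _).symm
    · exact absurd hxy (Fin.succ_ne_zero _)
    · have := Fin.succ_injective _ hxy
      rw [e.injective this]
  refine ⟨rename ι p, (totalDegree_rename_le _ _).trans hd, ?_, fun A => ?_⟩
  · change l1 (rename ι p) ≤ _
    refine (l1_rename _ _).trans (hl.trans ?_)
    have h1 : B ≤ B.toNat := Int.self_le_toNat B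
    have h3 : (0 : ℤ) ≤ (B.toNat : ℤ) := by positivity
    have h4 : (0 : ℤ) ≤ ((m + 3 : ℕ) : ℤ) + 1 := by positivity
    calc B * (((m + 3 : ℕ) : ℤ) + 1) ≤ B.toNat * (((m + 3 : ℕ) : ℤ) + 1) :=
          mul_le_mul_of_nonneg_right h1 h4
      _ ≤ B.toNat * (4 * ((m : ℤ) + 1)) := by
          apply mul_le_mul_of_nonneg_left _ h3
          push_cast; linarith
      _ = ((4 * B.toNat : ℕ) : ℤ) * (m + 1) := by push_cast; ring
      _ ≤ (C : ℤ) * (m + 1) := by
          apply mul_le_mul_of_nonneg_right _ (by positivity)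
          have : 4 * B.toNat ≤ C := by omega
          exact_mod_cast this
  obtain ⟨a, b, h1, h2, h3, h4, h5, h6, S, h7, h8⟩ := exists_number (A + L)
  have ha0 : (a : ℚ) ≠ 0 := by exact_mod_cast h3.ne'
  refine ⟨a, by omega, ?_, ?_⟩
  · obtain ⟨M, ho, hM⟩ := rC_complete ha0 S h7 h8 (m + 3)
    obtain ⟨s, hs0, hs1, -, -⟩ := chain_of_rC _ _ _ hM
    obtain ⟨y, hya, -, hy⟩ := (hp (a : ℚ) s).1 ⟨by simpa using hs0, fun i hi => by
      simpa using hs1 i hi⟩
    obtain ⟨z, hz⟩ := Function.Injective.surjective_comp_right (γ := ℚ) hinj y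
    have hz0 : z 0 = a := by
      have : z (ι none) = y none := congrFun hz none
      rw [hya] at this
      exact this
    refine ⟨fun i => z i.succ, ?_⟩
    have e2 : (Fin.cons (a : ℚ) (fun i : Fin (C * (m + 1)) => z i.succ) :
        Fin (C * (m + 1) + 1) → ℚ) = z := by
      funext i
      refine Fin.cases ?_ (fun i => ?_) i
      · simp [hz0]
      · simp
    rw [e2, aeval_rename]
    have hz' : z ∘ ι = y := hz
    rw [hz', hy]
  · intro x hx
    rw [aeval_rename] at hx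
    set v : Fin (C * (m + 1) + 1) → ℚ := Fin.cons (a : ℚ) x with hv
    set s : ℕ → Fin 2 → ℚ := fun i j => if h : i < m + 3 + 1 then x (e (⟨i, h⟩, Sum.inl j)) else 0
      with hs
    have hch := (hp (a : ℚ) s).2 ⟨v ∘ ι, rfl, fun i j => by
      simp only [Function.comp, hs, dif_pos i.2]
      change v (e (i, Sum.inl j)).succ = _
      rw [hv, Fin.cons_succ], hx⟩
    have hch' : RC (m + 3) (a : ℚ) (s (m + 3) 0) (s (m + 3) 1) :=
      rC_of_chain s (by simpa using hch.1) (m + 3) (fun i hi => by simpa using hch.2 i hi)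
    obtain ⟨M, ho, e5, -, hc⟩ := rC_sound ha0 b h4 h6 (m + 3) _ _ hch'
    have h9 : s (m + 3) 0 = x (e (⟨m + 3, by omega⟩, Sum.inl 0)) := by
      simp only [hs, dif_pos (show m + 3 < m + 3 + 1 by omega)]
    refine ⟨e (⟨m + 3, by omega⟩, Sum.inl 0), ?_⟩
    rw [← h9, e5]
    have hpow : 4 * 2 ^ m + 1 ≤ 2 ^ (m + 3) := by
      have : 1 ≤ 2 ^ m := Nat.one_le_two_pow
      rw [pow_add]
      omega
    have h10 := hL b (m + 3) (by omega) hpow M ho hc
    refine le_trans ?_ h10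
    apply Nat.pow_le_pow_right (by norm_num)
    apply Nat.pow_le_pow_right (by norm_num)
    calc (Nat.log 2 a) ^ (2 ^ m) ≤ (b ^ 4) ^ (2 ^ m) := Nat.pow_le_pow_left h5 _
      _ = b ^ (4 * 2 ^ m) := by rw [pow_mul]

end Pool.Agent.TH588.HF
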